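import Pool.Agent.R993.GS.Link
import Pool.Agent.R993.GS.Add

/-! # The operational squeezing measure G is additive

In terms of the Cayley transform H of a pure covariance matrix, which anticommutes with the
symplectic form, the constraint and the diagonal blocks are compatible, and the objective is a
convex spectral function of H, so the pinching inequality gives superadditivity. -/

namespace Pool.Agent.Results.MP_18219f_mp.Additivity

open Matrix Pool.Agent.R993.GS

/-- modes of the composite system: the first n₁ modes and then the other n₂ modes -/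
def modes (n₁ n₂ : ℕ) : (Fin n₁ × Fin 2) ⊕ (Fin n₂ × Fin 2) ≃ Fin (n₁ + n₂) × Fin 2 :=
  (Equiv.sumProdDistrib (Fin n₁) (Fin n₂) (Fin 2)).symm.trans
    (Equiv.prodCongr finSumFinEquiv (Equiv.refl (Fin 2)))

/-- the block diagonal matrix γA ⊕ γB on n₁ + n₂ modes -/
def directSum {n₁ n₂ : ℕ} (γA : Mat n₁) (γB : Mat n₂) : Mat (n₁ + n₂) :=
  Matrix.reindex (modes n₁ n₂) (modes n₁ n₂) (Matrix.fromBlocks γA 0 0 γB)

lemma sForm_sum (n₁ n₂ : ℕ) : sForm (n₁ + n₂) = directSum (sForm n₁) (sForm n₂) := by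
  unfold directSum
  rw [Matrix.reindex_apply, ← Matrix.submatrix_id_id (sForm (n₁ + n₂))]
  have : ∀ M : Matrix ((Fin n₁ × Fin 2) ⊕ (Fin n₂ × Fin 2))
      ((Fin n₁ × Fin 2) ⊕ (Fin n₂ × Fin 2)) ℝ,
      (sForm (n₁ + n₂)).submatrix (modes n₁ n₂) (modes n₁ n₂) = M →
      (sForm (n₁ + n₂)).submatrix id id
        = M.submatrix (modes n₁ n₂).symm (modes n₁ n₂).symm := by
    intro M hM
    rw [← hM]
    ext i j
    simp
  apply this
  ext x y
  rcases x with ⟨i, a⟩ | ⟨i, a⟩ <;> rcases y with ⟨j, b⟩ | ⟨j, b⟩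
  · simp [sForm, modes, Fin.ext_iff]
  · have h : ¬ ((i : ℕ) = n₁ + (j : ℕ)) := by have := i.2; omega
    simp [sForm, modes, Fin.ext_iff, h]
  · have h : ¬ (n₁ + (i : ℕ) = (j : ℕ)) := by have := j.2; omega
    simp [sForm, modes, Fin.ext_iff, h]
  · simp [sForm, modes, Fin.ext_iff]

theorem result {n₁ n₂ : ℕ} (γA : Mat n₁) (γB : Mat n₂) (hA : IsCov γA) (hB : IsCov γB) :
    G (directSum γA γB) = G γA + G γB := by
  rw [G_eq, G_eq, G_eq, sForm_sum]
  have hJ1 : (bd (sForm n₁) (sForm n₂))ᵀ = -bd (sForm n₁) (sForm n₂) := by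
    rw [bd_transpose, sForm_transpose, sForm_transpose, bd_neg]
  have hJ2 : bd (sForm n₁) (sForm n₂) * bd (sForm n₁) (sForm n₂) = -1 := by
    rw [bd_mul, sForm_sq, sForm_sq, ← bd_neg, bd_one]
  have h := gen_add (sForm_transpose n₁) (sForm_sq n₁) (sForm_transpose n₂) (sForm_sq n₂)
    (card_modes n₁) (card_modes n₂) hA.rc hB.rc
  rw [← h]
  unfold directSum
  have hm : Fintype.card ((Fin n₁ × Fin 2) ⊕ (Fin n₂ × Fin 2)) = 2 * (n₁ + n₂) := by
    rw [Fintype.card_sum, card_modes, card_modes]; ring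
  exact congrArg sInf (feas_reindex (modes n₁ n₂) (γ := bd γA γB) hJ1 hJ2 hm)

end Pool.Agent.Results.MP_18219f_mp.Additivity
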